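import Pool.Agent.Helper80.LR.Spec

/-!
Project LR, module LR-6: monotonicity in `p` of the probability of an increasing event.
-/

set_option autoImplicit false
open Classical Filter Topology

namespace Pool.Agent.Helper14.LR

open Pool.Agent.Helper80.LR

/-- thinning identity: the `p`-weight of `R` is the sum over `S ⊇ R` of the `q`-weight of `S`
times the probability that the `r`-thinning of `S` is `R` (`p = q r`). -/
theorem thin {X : Type} [Fintype X] (q r : ℝ) (R : Finset X) :
    (q * r) ^ R.card * (1 - q * r) ^ (Fintype.card X - R.card)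
      = ∑ S : Finset X, if R ⊆ S then
          (q ^ S.card * (1 - q) ^ (Fintype.card X - S.card)) *
            (r ^ R.card * (1 - r) ^ (S.card - R.card)) else 0 := by
  have key := Finset.prod_add (fun i : X => if i ∈ R then q * r else q * (1 - r))
    (fun i : X => if i ∈ R then (0 : ℝ) else 1 - q) (Finset.univ : Finset X)
  have hL : ∏ i ∈ (Finset.univ : Finset X), ((if i ∈ R then q * r else q * (1 - r)) +
      (if i ∈ R then (0 : ℝ) else 1 - q))
      = (q * r) ^ R.card * (1 - q * r) ^ (Fintype.card X - R.card) := by
    have h3 : ∀ i ∈ (Finset.univ : Finset X), ((if i ∈ R then q * r else q * (1 - r)) +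
      (if i ∈ R then (0 : ℝ) else 1 - q)) = if i ∈ R then q * r else 1 - q * r := by
      intro i _; split_ifs <;> ring
    rw [Finset.prod_congr rfl h3, Finset.prod_ite, Finset.prod_const, Finset.prod_const]
    congr 2
    · simp
    · rw [← Finset.card_univ, ← Finset.card_sdiff_of_subset (Finset.subset_univ R)]
      congr 1
      ext i; simp
  rw [← hL, key, Finset.powerset_univ]
  refine Finset.sum_congr rfl fun S _ => ?_
  split_ifs with hRS
  · have h1 : ∏ i ∈ S, (if i ∈ R then q * r else q * (1 - r))
        = (q * r) ^ R.card * (q * (1 - r)) ^ (S.card - R.card) := by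
      rw [Finset.prod_ite, Finset.prod_const, Finset.prod_const]
      congr 2
      · congr 1
        ext i; simp only [Finset.mem_filter]; exact ⟨fun h => h.2, fun h => ⟨hRS h, h⟩⟩
      · rw [← Finset.card_sdiff_of_subset hRS]
        congr 1
        ext i; simp
    have h2 : ∏ i ∈ Finset.univ \ S, (if i ∈ R then (0 : ℝ) else 1 - q)
        = (1 - q) ^ (Fintype.card X - S.card) := by
      rw [Finset.prod_congr rfl (g := fun _ => 1 - q), Finset.prod_const,
        Finset.card_sdiff_of_subset (Finset.subset_univ S), Finset.card_univ]
      intro i hi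
      rw [if_neg]
      intro hiR
      exact (Finset.mem_sdiff.1 hi).2 (hRS hiR)
    rw [h1, h2, mul_pow, mul_pow]
    have h4 : q ^ S.card = q ^ R.card * q ^ (S.card - R.card) := by
      rw [← pow_add]; congr 1
      have := Finset.card_le_card hRS
      omega
    rw [h4]; ring
  · obtain ⟨i, hiR, hiS⟩ := Finset.not_subset.1 hRS
    have h2 : ∏ i ∈ Finset.univ \ S, (if i ∈ R then (0 : ℝ) else 1 - q) = 0 := by
      apply Finset.prod_eq_zero (i := i)
      · simp [hiS]
      · rw [if_pos hiR]
    rw [h2, mul_zero]

/-- the thinning probabilities sum to one -/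
theorem thin_sum {X : Type} [Fintype X] (r : ℝ) (S : Finset X) :
    ∑ R : Finset X, (if R ⊆ S then r ^ R.card * (1 - r) ^ (S.card - R.card) else 0) = 1 := by
  have h := Finset.sum_pow_mul_eq_add_pow r (1 - r) S
  rw [← Finset.sum_filter]
  have h2 : (Finset.univ : Finset (Finset X)).filter (fun R => R ⊆ S) = S.powerset := by
    ext R; simp
  rw [h2, h]
  simp

/-- LR-6 -/
theorem mono : MonoStmt := by
  intro X _ A hA p q hp hpq hq
  rcases eq_or_lt_of_le (hp.trans hpq) with h0 | h0
  · have : p = q := le_antisymm hpq (h0 ▸ hp)
    rw [this]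
  · set r := p / q with hr
    have hqr : q * r = p := by rw [hr]; field_simp
    have hr0 : 0 ≤ r := div_nonneg hp h0.le
    have hr1 : r ≤ 1 := (div_le_one h0).2 hpq
    have hw : ∀ S : Finset X, 0 ≤ q ^ S.card * (1 - q) ^ (Fintype.card X - S.card) := fun S =>
      mul_nonneg (pow_nonneg h0.le _) (pow_nonneg (by linarith) _)
    have ht : ∀ R S : Finset X, 0 ≤ r ^ R.card * (1 - r) ^ (S.card - R.card) := fun R S =>
      mul_nonneg (pow_nonneg hr0 _) (pow_nonneg (by linarith) _)
    calc ∑ S ∈ (Finset.univ : Finset (Finset X)).filter A,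
          p ^ S.card * (1 - p) ^ (Fintype.card X - S.card)
        = ∑ R : Finset X, ∑ S : Finset X, (if A R ∧ R ⊆ S then
          (q ^ S.card * (1 - q) ^ (Fintype.card X - S.card)) *
            (r ^ R.card * (1 - r) ^ (S.card - R.card)) else 0) := by
          rw [Finset.sum_filter]
          refine Finset.sum_congr rfl fun R _ => ?_
          split_ifs with hR
          · rw [← hqr, thin]
            refine Finset.sum_congr rfl fun S _ => ?_
            simp [hR]
          · simp [hR]
      _ ≤ ∑ R : Finset X, ∑ S : Finset X, (if A S ∧ R ⊆ S then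
          (q ^ S.card * (1 - q) ^ (Fintype.card X - S.card)) *
            (r ^ R.card * (1 - r) ^ (S.card - R.card)) else 0) := by
          refine Finset.sum_le_sum fun R _ => Finset.sum_le_sum fun S _ => ?_
          by_cases h1 : A R ∧ R ⊆ S
          · rw [if_pos h1, if_pos ⟨hA R S h1.2 h1.1, h1.2⟩]
          · rw [if_neg h1]
            split_ifs
            · exact mul_nonneg (hw S) (ht R S)
            · exact le_rfl
      _ = ∑ S ∈ (Finset.univ : Finset (Finset X)).filter A,
          q ^ S.card * (1 - q) ^ (Fintype.card X - S.card) := by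
          rw [Finset.sum_comm, Finset.sum_filter]
          refine Finset.sum_congr rfl fun S _ => ?_
          split_ifs with hS
          · have h5 : ∀ R ∈ (Finset.univ : Finset (Finset X)), (if A S ∧ R ⊆ S then
              (q ^ S.card * (1 - q) ^ (Fintype.card X - S.card)) *
              (r ^ R.card * (1 - r) ^ (S.card - R.card)) else 0)
              = (q ^ S.card * (1 - q) ^ (Fintype.card X - S.card)) *
                (if R ⊆ S then r ^ R.card * (1 - r) ^ (S.card - R.card) else 0) := by
              intro R _
              simp [hS]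
            rw [Finset.sum_congr rfl h5, ← Finset.mul_sum, thin_sum, mul_one]
          · simp [hS]

end Pool.Agent.Helper14.LR
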